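import Pool.Agent.Helper36.Cpt
import Pool.Agent.Helper8.E.PieceAct

/-!
Compact pieces, for families of factors of five kinds.
-/

namespace Pool.Agent.Helper36.E

open Module NumberField Pool.Agent.Helper7 Pool.Agent.Helper24 Pool.Agent.Helper36 Matrix
open Pool.Agent.Helper8.D (Sym QF ent ent_apply ent_act ent_mul ent_trace ent_proj symI
  SS vl vl_inv mkS vl_mkS brS vl_brS cS cS_apply entS entS_apply entS_br cS_br)
open Pool.Agent.Helper8.E
open Pool.Agent.GPC (AbVar Emb)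
open scoped ComplexConjugate ComplexOrder

set_option linter.unusedSectionVars false

section mat

/-- traces and complex conjugation -/
lemma trace_bar0 {m : Type} [Fintype m] [DecidableEq m] {H h N N' : Matrix m m ℂ} (hH : H.PosDef)
    (hh : h * h = 1) (h2 : N'ᴴ * H = -(H * (h * N * h))) : star N'.trace = -N.trace := by
  have hu : IsUnit H.det := (Matrix.isUnit_iff_isUnit_det H).mp hH.isUnit
  rw [← Matrix.trace_conjTranspose]
  calc (N'ᴴ).trace = ((N'ᴴ * H) * H⁻¹).trace := by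
        rw [Matrix.mul_assoc, Matrix.mul_nonsing_inv _ hu, Matrix.mul_one]
    _ = -((H * (h * N * h)) * H⁻¹).trace := by
        rw [h2, Matrix.neg_mul, Matrix.trace_neg]
    _ = -(H⁻¹ * (H * (h * N * h))).trace := by
        rw [Matrix.trace_mul_comm]
    _ = -(h * N * h).trace := by
        rw [← Matrix.mul_assoc, Matrix.nonsing_inv_mul _ hu, Matrix.one_mul]
    _ = -(h * (h * N)).trace := by
        rw [Matrix.trace_mul_comm]
    _ = -N.trace := by
        rw [← Matrix.mul_assoc, hh, Matrix.one_mul]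

/-- the traceless parts -/
lemma sub_tr {H h M M' : Matrix (Fin 2) (Fin 2) ℂ} (hH : H.PosDef) (hh : h * h = 1)
    (h1 : Mᴴ * H = -(H * (h * M' * h))) :
    (M - ((M.trace - 0) / 2) • (1 : Matrix (Fin 2) (Fin 2) ℂ))ᴴ * H =
      -(H * (h * (M' - ((M'.trace - 0) / 2) • (1 : Matrix (Fin 2) (Fin 2) ℂ)) * h)) := by
  have h2 := trace_bar0 hH hh h1
  have h3 : star ((M.trace - 0) / 2) = -((M'.trace - 0) / 2) := by
    rw [sub_zero, sub_zero, star_div₀, h2, neg_div]
    congr 2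
    exact map_ofNat (starRingEnd ℂ) 2
  have e : h * (M' - ((M'.trace - 0) / 2) • (1 : Matrix (Fin 2) (Fin 2) ℂ)) * h =
      h * M' * h - ((M'.trace - 0) / 2) • (1 : Matrix (Fin 2) (Fin 2) ℂ) := by
    rw [Matrix.mul_sub, Matrix.sub_mul, Matrix.mul_smul, Matrix.mul_one, Matrix.smul_mul, hh]
  rw [e, Matrix.conjTranspose_sub, Matrix.conjTranspose_smul, h3, Matrix.conjTranspose_one,
    Matrix.sub_mul, h1, Matrix.smul_mul, Matrix.one_mul, Matrix.mul_sub, Matrix.mul_smul,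
    Matrix.mul_one]
  module

end mat

section single

variable {A : AbVar} {K : Type} [Field K] [NumberField K]

/-- the reflection in the representations of dimension two -/
lemma A_refl (f : Fac5 (pData A) K) (hf : f.isP) (σ : K →+* ℂ) (ε : Fin 2) :
    f.A σ ε (refl' A, 0) = (2 : ℂ) • f.A σ ε (hod A, 1) - 1 := by
  cases f with
  | S F h => exact matAt_refl F σ
  | W F h =>
    show Fac5.nrW F σ (refl' A, 0) = (2 : ℂ) • Fac5.nrW F σ (hod A, 1) - 1
    rw [Fac5.nrW_apply, Fac5.nrW_apply, show ent F σ (refl' A) = _ from matAt_refl F σ,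
      Matrix.trace_sub, Matrix.trace_smul, Matrix.trace_one, smul_eq_mul, Fintype.card_fin]
    push_cast
    module
  | Q F =>
    show (F.sp σ).a ε (ent F.toUF σ (refl' A), 0) =
      (2 : ℂ) • (F.sp σ).a ε (ent F.toUF σ (hod A), 1) - 1
    rw [show ent F.toUF σ (refl' A) = _ from matAt_refl F.toUF σ]
    exact (inv_props _ (F.gso σ hod_sym) (ent_hod_idem F.toUF σ)).2.2 ε
  | R F => exact hf.elim
  | T F => exact hf.elim

/-- places of kind `S` are not compact -/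
theorem not_cpt (f : Fac5 (pData A) K) (hf : f.isS) (σ : K →+* ℂ) (ε : Fin 2) :
    f.A σ ε (hod A, 1) ≠ (1 / 2 : ℂ) • 1 := by
  cases f with
  | S F h =>
    intro h1
    have h2 : ent F σ (hod A) = (1 / 2 : ℂ) • 1 := h1
    have h3 := ent_hod_idem F σ
    rw [h2, Matrix.smul_mul, Matrix.one_mul, smul_smul] at h3
    have h4 := congrFun (congrFun h3 0) 0
    norm_num [Matrix.smul_apply] at h4
  | W F h => exact hf.elim
  | Q F => exact hf.elim
  | R F => exact hf.elim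
  | T F => exact hf.elim

/-- the reflection at a compact place of unitary type -/
lemma refl_of_cptW (F : UF (pData A) K 2) (σ : K →+* ℂ)
    (hc : Fac5.nrW F σ (hod A, 1) = (1 / 2 : ℂ) • 1) :
    ∃ s : ℂ, s * s = 1 ∧ F.matAt σ (refl' A) = s • 1 := by
  rw [Fac5.nrW_apply] at hc
  obtain ⟨e, he⟩ : ∃ e : ℂ, ent F σ (hod A) = e • 1 := by
    refine ⟨(ent F σ (hod A)).trace / 2, ?_⟩
    have h1 := eq_add_of_sub_eq hc
    conv_lhs => rw [h1]
    module
  refine ⟨2 * e - 1, ?_, ?_⟩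
  · have h3 := ent_hod_idem F σ
    rw [he, Matrix.smul_mul, Matrix.one_mul, smul_smul] at h3
    have h4 := congrFun (congrFun h3 0) 0
    rw [Matrix.smul_apply, Matrix.smul_apply, Matrix.one_apply_eq, smul_eq_mul, smul_eq_mul,
      mul_one, mul_one] at h4
    linear_combination 4 * h4
  · rw [matAt_refl, he]
    module

/-- the reflection at a noncompact place of unitary type -/
lemma refl_of_ncptW (F : UF (pData A) K 2) (σ : K →+* ℂ)
    (hc : Fac5.nrW F σ (hod A, 1) ≠ (1 / 2 : ℂ) • 1) : (F.matAt σ (refl' A)).trace = 0 := by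
  by_contra hne
  apply hc
  obtain ⟨h, hh⟩ : ∃ h, h = F.matAt σ (refl' A) := ⟨_, rfl⟩
  have h1 : h * h = 1 := by rw [hh]; exact F.hh_one σ
  rw [← hh] at hne
  have h2 : h.trace • h = (1 + h.det) • (1 : Matrix (Fin 2) (Fin 2) ℂ) := by
    have e00 := congrFun (congrFun h1 0) 0
    have e01 := congrFun (congrFun h1 0) 1
    have e10 := congrFun (congrFun h1 1) 0
    have e11 := congrFun (congrFun h1 1) 1
    rw [Matrix.mul_apply, Fin.sum_univ_two] at e00 e01 e10 e11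
    rw [Matrix.one_apply_eq] at e00 e11
    rw [Matrix.one_apply_ne (by decide)] at e01 e10
    ext i j
    rw [Matrix.smul_apply, Matrix.smul_apply, Matrix.trace_fin_two, Matrix.det_fin_two,
      smul_eq_mul, smul_eq_mul]
    fin_cases i <;> fin_cases j
    · show (h 0 0 + h 1 1) * h 0 0 = (1 + (h 0 0 * h 1 1 - h 0 1 * h 1 0)) * (1 : Matrix _ _ ℂ) 0 0
      rw [Matrix.one_apply_eq]
      linear_combination e00
    · show (h 0 0 + h 1 1) * h 0 1 = (1 + (h 0 0 * h 1 1 - h 0 1 * h 1 0)) * (1 : Matrix _ _ ℂ) 0 1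
      rw [Matrix.one_apply_ne (by decide)]
      linear_combination e01
    · show (h 0 0 + h 1 1) * h 1 0 = (1 + (h 0 0 * h 1 1 - h 0 1 * h 1 0)) * (1 : Matrix _ _ ℂ) 1 0
      rw [Matrix.one_apply_ne (by decide)]
      linear_combination e10
    · show (h 0 0 + h 1 1) * h 1 1 = (1 + (h 0 0 * h 1 1 - h 0 1 * h 1 0)) * (1 : Matrix _ _ ℂ) 1 1
      rw [Matrix.one_apply_eq]
      linear_combination e11
  obtain ⟨c, hc'⟩ : ∃ c : ℂ, h = c • 1 := by
    refine ⟨(h.trace)⁻¹ * (1 + h.det), ?_⟩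
    rw [← smul_smul, ← h2, smul_smul, inv_mul_cancel₀ hne, one_smul]
  have h3 : ent F σ (hod A) = ((c + 1) / 2) • 1 := by
    have h4 := matAt_refl F σ
    rw [← hh, hc'] at h4
    have h5 : (2 : ℂ) • ent F σ (hod A) = (c + 1) • (1 : Matrix (Fin 2) (Fin 2) ℂ) := by
      rw [add_smul, one_smul, h4, sub_add_cancel]
    calc ent F σ (hod A) = (1 / 2 : ℂ) • ((2 : ℂ) • ent F σ (hod A)) := by
          rw [smul_smul]; norm_num
      _ = _ := by rw [h5, smul_smul]; congr 1; ring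
  rw [Fac5.nrW_apply, h3, Matrix.trace_smul, Matrix.trace_one, smul_eq_mul, Fintype.card_fin]
  push_cast
  module

/-- real elements at a compact index -/
theorem cpt_neg (f : Fac5 (pData A) K) (hf : f.isW ∨ f.isQ) (σ : K →+* ℂ) (ε : Fin 2)
    (hc : f.A σ ε (hod A, 1) = (1 / 2 : ℂ) • 1) {X : Module.End ℂ A.H1} (hX : Sym (pData A) X 0)
    (hr : ∀ v, cB (pData A) (X v) = X (cB (pData A) v)) :
    ∃ t : ℝ, 0 ≤ t ∧ (f.A σ ε (X, 0) * f.A σ ε (X, 0)).trace = -t := by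
  cases f with
  | S F h => rcases hf with hf | hf <;> exact hf.elim
  | W F h =>
    have hc' : Fac5.nrW F σ (hod A, 1) = (1 / 2 : ℂ) • 1 := hc
    obtain ⟨s, hs, hs'⟩ := refl_of_cptW F σ hc'
    have h1 := sub_tr (F.HM_posDef σ) (F.hh_one σ)
      (F.HM_real σ (hX.commF F) hr (fun u v => by rw [hX.pol, zero_mul]))
    have h2 : (Fac5.nrW F σ (X, 0))ᴴ * F.HM σ = -(F.HM σ * Fac5.nrW F σ (X, 0)) := by
      rw [Fac5.nrW_apply]
      refine h1.trans ?_
      rw [hs', Matrix.smul_mul, Matrix.one_mul, Matrix.mul_smul, Matrix.mul_one, smul_smul, hs,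
        one_smul]
      rfl
    obtain ⟨r, hr0, hr1, -⟩ := Pool.Agent.Helper20.skewAdj_trace_sq (F.HM_posDef σ) h2
    exact ⟨r, hr0, hr1⟩
  | Q F =>
    have hc' : (F.sp σ).a ε (ent F.toUF σ (hod A), 1) = (1 / 2 : ℂ) • 1 := hc
    have hM := F.gso σ (hod_sym (A := A))
    have hMM := ent_hod_idem F.toUF σ
    have hN := F.gso σ hX
    obtain ⟨l, r, hl, hr', hsum, l1, r0, l2, r2⟩ := exists_decomp (F.sp σ) hN ε
    obtain ⟨⟨s, hs⟩, hcomm, htr⟩ := decomp_inv (F.sp σ) hM hMM ε hc' hl hr' l1 r0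
    rw [← matAt_refl F.toUF σ] at hs hcomm htr
    obtain ⟨t, ht0, ht1, -⟩ := Pool.Agent.Helper20.commPart_trace_sq (F.toUF.HM_posDef σ)
      (F.toUF.hh_one σ) (F.toUF.HM_refl' σ)
      (F.toUF.HM_real σ (hX.commF F.toUF) hr (fun u v => by rw [hX.pol, zero_mul]))
      hsum hcomm htr hs
    refine ⟨t / 2, by positivity, ?_⟩
    show ((F.sp σ).a ε (ent F.toUF σ X, 0) * (F.sp σ).a ε (ent F.toUF σ X, 0)).trace = _
    rw [← l2]
    have e1 := trace_sq (F.sp σ) hl
    rw [ht1] at e1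
    have e2 : (l * l).trace = 2 * ((F.sp σ).a ε (l, 0) * (F.sp σ).a ε (l, 0)).trace := by
      rw [trace_sq (F.sp σ) hl]
      fin_cases ε
      · change (F.sp σ).a 1 (l, 0) = 0 at l1
        rw [l1, Matrix.mul_zero, trace_zero, mul_zero, add_zero]
        rfl
      · change (F.sp σ).a 0 (l, 0) = 0 at l1
        rw [l1, Matrix.mul_zero, trace_zero, mul_zero, zero_add]
        rfl
    rw [ht1] at e2
    push_cast
    linear_combination (-1 / 2 : ℂ) * e2
  | R F => rcases hf with hf | hf <;> exact hf.elim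
  | T F => rcases hf with hf | hf <;> exact hf.elim

/-- real elements at an index which is not compact -/
theorem ncpt_pos (f : Fac5 (pData A) K) (hf : f.isP) (σ : K →+* ℂ) (ε : Fin 2)
    (hc : f.A σ ε (hod A, 1) ≠ (1 / 2 : ℂ) • 1) {Y Y' : Module.End ℂ A.H1}
    (hY : Sym (pData A) Y 0) (hY' : Sym (pData A) Y' 0)
    (hbar : ∀ v, Y' v = cB (pData A) (Y (cB (pData A) v)))
    (hne : f.A σ ε (Y, 0) ≠ 0) (htr : (f.A σ ε (Y, 0) * f.A σ ε (refl' A, 0)).trace = 0) :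
    ∃ c : ℂ, ∃ t : ℝ, 0 < t ∧ (f.A σ ε (c • Y + conj c • Y', 0) *
      f.A σ ε (c • Y + conj c • Y', 0)).trace = t := by
  have hbar' : ∀ v, Y v = cB (pData A) (Y' (cB (pData A) v)) := by
    intro v
    rw [hbar, cB_cB, cB_cB]
  have hψ : ∀ u v, (pData A).ψ (Y u) v + (pData A).ψ u (Y v) = 0 := fun u v => by
    rw [hY.pol, zero_mul]
  have hψ' : ∀ u v, (pData A).ψ (Y' u) v + (pData A).ψ u (Y' v) = 0 := fun u v => by
    rw [hY'.pol, zero_mul]
  cases f with
  | S F h =>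
    have hlin : ∀ c : ℂ, ent F σ (c • Y + conj c • Y') = c • ent F σ Y + conj c • ent F σ Y' := by
      intro c
      rw [map_add, map_smul, map_smul]
    have t1 : (ent F σ (refl' A)).trace = 0 := (Fac5.S F h).A_tr σ ε refl_sym
    have t2 : (ent F σ Y).trace = 0 := (Fac5.S F h).A_tr σ ε hY
    have t3 : (ent F σ Y').trace = 0 := (Fac5.S F h).A_tr σ ε hY'
    obtain ⟨c, t, ht, h1⟩ := posS (F.HM_posDef σ) t1 (F.hh_one σ) (F.HM_refl' σ) t2 t3
      (HM_bar F σ (hY'.commF F) (hY.commF F) hψ hbar')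
      (HM_bar F σ (hY.commF F) (hY'.commF F) hψ' hbar) hne htr
    refine ⟨c, t, ht, ?_⟩
    show (ent F σ (c • Y + conj c • Y') * ent F σ (c • Y + conj c • Y')).trace = t
    rw [hlin]
    exact h1
  | W F h =>
    have hc' : Fac5.nrW F σ (hod A, 1) ≠ (1 / 2 : ℂ) • 1 := hc
    have hne' : Fac5.nrW F σ (Y, 0) ≠ 0 := hne
    have htr' : (Fac5.nrW F σ (Y, 0) * Fac5.nrW F σ (refl' A, 0)).trace = 0 := htr
    have t1 := refl_of_ncptW F σ hc'
    have hlin : ∀ c : ℂ, Fac5.nrW F σ (c • Y + conj c • Y', 0) =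
        c • Fac5.nrW F σ (Y, 0) + conj c • Fac5.nrW F σ (Y', 0) := by
      intro c
      rw [← map_smul, ← map_smul, ← map_add]
      congr 1
      refine Prod.ext rfl ?_
      show (0 : ℂ) = c • (0 : ℂ) + conj c • (0 : ℂ)
      rw [smul_zero, smul_zero, add_zero]
    have t2 : (Fac5.nrW F σ (Y, 0)).trace = 0 := (Fac5.W F h).A_tr σ ε hY
    have t3 : (Fac5.nrW F σ (Y', 0)).trace = 0 := (Fac5.W F h).A_tr σ ε hY'
    have t4 : Fac5.nrW F σ (refl' A, 0) = F.matAt σ (refl' A) := by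
      rw [Fac5.nrW_apply, show ent F σ (refl' A) = F.matAt σ (refl' A) from rfl, t1, sub_zero,
        zero_div, zero_smul, sub_zero]
    rw [t4] at htr'
    have b1 := sub_tr (F.HM_posDef σ) (F.hh_one σ)
      (HM_bar F σ (hY'.commF F) (hY.commF F) hψ hbar')
    have b2 := sub_tr (F.HM_posDef σ) (F.hh_one σ)
      (HM_bar F σ (hY.commF F) (hY'.commF F) hψ' hbar)
    have n1 : Fac5.nrW F σ (Y, 0) = F.matAt σ Y -
      (((F.matAt σ Y).trace - 0) / 2) • (1 : Matrix (Fin 2) (Fin 2) ℂ) := Fac5.nrW_apply F σ Y 0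
    have n2 : Fac5.nrW F σ (Y', 0) = F.matAt σ Y' -
      (((F.matAt σ Y').trace - 0) / 2) • (1 : Matrix (Fin 2) (Fin 2) ℂ) := Fac5.nrW_apply F σ Y' 0
    rw [← n1, ← n2] at b1 b2
    obtain ⟨c, t, ht, h1⟩ := posS (F.HM_posDef σ) t1 (F.hh_one σ) (F.HM_refl' σ) t2 t3
      b1 b2 hne' htr'
    refine ⟨c, t, ht, ?_⟩
    show (Fac5.nrW F σ (c • Y + conj c • Y', 0) *
      Fac5.nrW F σ (c • Y + conj c • Y', 0)).trace = t
    rw [hlin]
    exact h1
  | Q F =>
    have hM := F.gso σ (hod_sym (A := A))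
    have hMM := ent_hod_idem F.toUF σ
    obtain ⟨ε₀, he, -⟩ := exists_unique_half (F.sp σ) hM hMM
    have hε : ε₀ = 1 - ε := by
      have hne' : ε₀ ≠ ε := by
        rintro rfl
        exact hc he
      fin_cases ε <;> fin_cases ε₀ <;> first | rfl | exact absurd rfl hne'
    rw [hε] at he
    have h0 := half_iff (F.sp σ) hM hMM _ he
    rw [← matAt_refl F.toUF σ] at h0
    have hlin : ∀ c : ℂ, ent F.toUF σ (c • Y + conj c • Y') =
        c • ent F.toUF σ Y + conj c • ent F.toUF σ Y' := by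
      intro c
      rw [map_add, map_smul, map_smul]
    obtain ⟨c, t, ht, h1⟩ := posQ (F.sp σ) (F.toUF.HM_posDef σ) ε (F.gso σ refl_sym)
      (F.toUF.hh_one σ) h0 (F.toUF.HM_refl' σ) (F.gso σ hY) (F.gso σ hY')
      (HM_bar F.toUF σ (hY'.commF F.toUF) (hY.commF F.toUF) hψ hbar')
      (HM_bar F.toUF σ (hY.commF F.toUF) (hY'.commF F.toUF) hψ' hbar) hne htr
    refine ⟨c, t, ht, ?_⟩
    show ((F.sp σ).a ε (ent F.toUF σ (c • Y + conj c • Y'), 0) *
      (F.sp σ).a ε (ent F.toUF σ (c • Y + conj c • Y'), 0)).trace = t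
    rw [hlin]
    exact h1
  | R F => exact hf.elim
  | T F => exact hf.elim

end single

section family

variable {I : Type} [Fintype I] [DecidableEq I] (n : I → ℕ) (A : I → AbVar)
  {K : I → Type} [∀ i, Field (K i)] [∀ i, NumberField (K i)]
  {k : ℕ} (α : MultilinearMap ℂ
    (fun _ : Fin (2 * k) => HW (fun i => Fin (A i).g ⊕ Fin (A i).g) n) ℂ)
  (F : ∀ i, Fac5 (pData (A i)) (K i))

/-- (F1b) -/
theorem cpt_not_S (s : Emb K) (hs : (F s.1).isS) (ε : Fin 2) : ¬ Cpt A F (s, ε) :=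
  not_cpt (F s.1) hs s.2 ε

variable
  (hB : ∀ v : Fin (2 * k) → HW (fun i => Fin (A i).g ⊕ Fin (A i).g) n,
    (∀ r, IsRatP n (fun i => pData (A i)) (v r)) →
      ∃ q : ℚ, α v = (2 * Real.pi * Complex.I) ^ k * q)
  (hA : ∀ v : Fin (2 * k) → HW (fun i => Fin (A i).g ⊕ Fin (A i).g) n,
    (∀ r i m j, IsAlgebraic ℚ (v r i m j)) → IsAlgebraic ℚ (α v))

include hB hA in
lemma cpt_of_lk_one (t t' : Emb K × Fin 2) (ht : (F t.1.1).isP) (ht' : (F t'.1.1).isP)
    (h : Lk n (fun i => pData (A i)) α F t t') (hc : Cpt A F t) : Cpt A F t' := by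
  have hϖ : (2 * Real.pi * Complex.I : ℂ) ≠ 0 := Complex.two_pi_I_ne_zero
  by_contra hnc
  have htQ : (F t.1.1).isW ∨ (F t.1.1).isQ := by
    rcases (F t.1.1).isP_iff.mp ht with ht | ht | ht
    · exact absurd hc (cpt_not_S A F t.1 ht t.2)
    · exact Or.inl ht
    · exact Or.inr ht
  obtain ⟨Z, hZ0, hZt, hZT⟩ := exists_orth ((F t'.1.1).A t'.1.2 t'.2 (refl' (A t'.1.1), 0))
  obtain ⟨Y, hY⟩ := AS_surj n (fun i => pData (A i)) α F hϖ hB hA t' ht' Z hZt
  have hY2 : (vl n (fun i => pData (A i)) α Y).2 = 0 := by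
    have h1 := AS_tr n (fun i => pData (A i)) α F t' Y
    rw [hY, hZt, cS_apply] at h1
    exact h1.symm
  obtain ⟨Y', hY', hY'2, -, hbar⟩ := Pool.Agent.Helper28.GPC.exists_real n
    (fun i => pData (A i)) α hϖ hB _ (vl_inv n (fun i => pData (A i)) α Y)
  obtain ⟨Y₀, hY₀⟩ : ∃ Y₀, Y₀ = vl n (fun i => pData (A i)) α Y := ⟨_, rfl⟩
  have hYi : IsInv n (fun i => pData (A i)) α Y₀ := by
    rw [hY₀]; exact vl_inv n (fun i => pData (A i)) α Y
  rw [← hY₀] at hY2 hY'2 hbar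
  rw [hY2, map_zero] at hY'2
  have hYs : ∀ i, Sym (pData (A i)) (Y₀.1 i) 0 := by
    intro i
    have := symI n (fun i => pData (A i)) α hYi i
    rwa [hY2] at this
  have hYs' : ∀ i, Sym (pData (A i)) (Y'.1 i) 0 := by
    intro i
    have := symI n (fun i => pData (A i)) α hY' i
    rwa [hY'2] at this
  have hZ : (F t'.1.1).A t'.1.2 t'.2 (Y₀.1 t'.1.1, 0) = Z := by
    rw [← hY, AS_apply, AA_apply, ← hY₀, hY2]
  obtain ⟨c, s, hs, hpos⟩ := ncpt_pos (F t'.1.1) ht' t'.1.2 t'.2 hnc (hYs t'.1.1) (hYs' t'.1.1)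
    (hbar t'.1.1) (by rw [hZ]; exact hZ0) (by rw [hZ]; exact hZT)
  obtain ⟨X, hX⟩ : ∃ X, X = c • Y₀ + conj c • Y' := ⟨_, rfl⟩
  have hXi : IsInv n (fun i => pData (A i)) α X := by
    rw [hX]
    exact (hYi.smul n _ α c).add n _ α (hY'.smul n _ α (conj c))
  have hX2 : X.2 = 0 := by
    rw [hX]
    show c • Y₀.2 + conj c • Y'.2 = 0
    rw [hY2, hY'2, smul_zero, smul_zero, add_zero]
  have hX1 : ∀ i, X.1 i = c • Y₀.1 i + conj c • Y'.1 i := by
    intro i; rw [hX]; rfl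
  have hXs : ∀ i, Sym (pData (A i)) (X.1 i) 0 := by
    intro i
    have := symI n (fun i => pData (A i)) α hXi i
    rwa [hX2] at this
  have hXr : ∀ i v, cB (pData (A i)) (X.1 i v) = X.1 i (cB (pData (A i)) v) := by
    intro i v
    rw [hX1, LinearMap.add_apply, LinearMap.add_apply, LinearMap.smul_apply, LinearMap.smul_apply,
      LinearMap.smul_apply, LinearMap.smul_apply, cB_add, cB_smul, cB_smul, hbar, hbar, cB_cB,
      cB_cB, Complex.conj_conj, add_comm]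
  obtain ⟨s', hs', hneg⟩ := cpt_neg (F t.1.1) htQ t.1.2 t.2 hc (hXs t.1.1) (hXr t.1.1)
  rw [lk_iff] at h
  obtain ⟨Q, hQ, hconj⟩ := h
  have h1 := hconj X hXi
  rw [AA_apply, AA_apply, hX2] at h1
  rw [← hX1] at hpos
  have hu : IsUnit Q.det := isUnit_iff_ne_zero.mpr hQ
  have h2 : ((F t.1.1).A t.1.2 t.2 (X.1 t.1.1, 0) * (F t.1.1).A t.1.2 t.2 (X.1 t.1.1, 0)).trace =
      ((F t'.1.1).A t'.1.2 t'.2 (X.1 t'.1.1, 0) *
        (F t'.1.1).A t'.1.2 t'.2 (X.1 t'.1.1, 0)).trace := by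
    generalize (F t.1.1).A t.1.2 t.2 (X.1 t.1.1, 0) = U at h1 ⊢
    generalize (F t'.1.1).A t'.1.2 t'.2 (X.1 t'.1.1, 0) = W at h1 ⊢
    calc (U * U).trace = (U * U * (Q * Q⁻¹)).trace := by
          rw [Matrix.mul_nonsing_inv _ hu, Matrix.mul_one]
      _ = (U * (U * Q) * Q⁻¹).trace := by simp only [Matrix.mul_assoc]
      _ = ((U * Q) * W * Q⁻¹).trace := by rw [h1, ← Matrix.mul_assoc U Q W, h1]
      _ = (Q * (W * W) * Q⁻¹).trace := by rw [h1]; simp only [Matrix.mul_assoc]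
      _ = (Q⁻¹ * (Q * (W * W))).trace := Matrix.trace_mul_comm _ _
      _ = (W * W).trace := by
          rw [← Matrix.mul_assoc, Matrix.nonsing_inv_mul _ hu, Matrix.one_mul]
  rw [hneg, hpos] at h2
  have h3 : (-s' : ℝ) = s := by exact_mod_cast h2
  linarith

include hB hA in
/-- (F2) compactness of a piece depends only on the class of links -/
theorem cpt_of_lk (t t' : Emb K × Fin 2) (ht : (F t.1.1).isP) (ht' : (F t'.1.1).isP)
    (h : Lk n (fun i => pData (A i)) α F t t') : Cpt A F t ↔ Cpt A F t' :=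
  ⟨cpt_of_lk_one n A α F hB hA t t' ht ht' h,
    cpt_of_lk_one n A α F hB hA t' t ht' ht h.symm⟩

end family

end Pool.Agent.Helper36.E
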