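import Pool.Agent.Helper36.E.LinkIso
import Pool.Agent.Helper8.E.Sign

/-!
Places of unitary type are linked with their conjugates, and pieces of places of type III are not
linked with places of unitary type, if the degrees of the fields are not in special relation.
-/

namespace Pool.Agent.Helper36.E

open Module NumberField Matrix
open Pool.Agent.Helper7 Pool.Agent.Helper36 Pool.Agent.Helper24
open Pool.Agent.Helper8.D (Sym QF ent ent_apply ent_act ent_mul ent_trace ent_proj symI)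
open Pool.Agent.Helper8.E
open Pool.Agent.GPC (Emb)

set_option linter.unusedSectionVars false

lemma card_pair {β : Type} [DecidableEq β] (S : Finset β) (c : β → β) (hc : ∀ x ∈ S, c x ∈ S)
    (hne : ∀ x, c x ≠ x) (h2 : ∀ x ∈ S, ∀ y ∈ S, y = x ∨ y = c x) : S.card = 0 ∨ S.card = 2 := by
  rcases S.eq_empty_or_nonempty with h | ⟨x, hx⟩
  · left
    rw [h, Finset.card_empty]
  · right
    have h1 : S = {x, c x} := by
      ext y
      rw [Finset.mem_insert, Finset.mem_singleton]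
      constructor
      · intro hy
        exact h2 x hx y hy
      · rintro (rfl | rfl)
        · exact hx
        · exact hc x hx
    rw [h1, Finset.card_pair (Ne.symm (hne x))]

section family

variable {I : Type} [Fintype I] [DecidableEq I] (n : I → ℕ)
  {κ : I → Type} [∀ i, Fintype (κ i)] [∀ i, DecidableEq (κ i)] {ϖ : ℂ}
  (P : ∀ i, PData (κ i) ϖ)
  {K : I → Type} [∀ i, Field (K i)] [∀ i, NumberField (K i)]
  {k : ℕ} (α : MultilinearMap ℂ (fun _ : Fin (2 * k) => HW κ n) ℂ)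
  (F : ∀ i, Fac5 (P i) (K i))
  (hϖ : ϖ ≠ 0)
  (hB : ∀ v : Fin (2 * k) → HW κ n, (∀ r, IsRatP n P (v r)) → ∃ q : ℚ, α v = ϖ ^ k * q)
  (hA : ∀ v : Fin (2 * k) → HW κ n, (∀ r i m j, IsAlgebraic ℚ (v r i m j)) →
      IsAlgebraic ℚ (α v))

/-- the standard alternating matrix -/
def JJ : Matrix (Fin 2) (Fin 2) ℂ := !![0, 1; -1, 0]

lemma JJ_mul : JJ * JJ = -1 := by
  ext a b
  fin_cases a <;> fin_cases b <;> simp [JJ]

lemma JJ_adj (M : Matrix (Fin 2) (Fin 2) ℂ) : M.trace • (1 : Matrix (Fin 2) (Fin 2) ℂ) - M =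
    -(JJ * Mᵀ * JJ) := by
  ext a b
  fin_cases a <;> fin_cases b <;> simp [JJ, Matrix.trace_fin_two, Matrix.mul_apply,
    Fin.sum_univ_two, Matrix.vecMul, dotProduct]

/-- a place of unitary type is linked with the conjugate place -/
theorem lk_conjW (s : Emb K) (hs : (F s.1).isW) (ε ε' : Fin 2) :
    Lk n P α F (s, ε) (conjT s, ε') := by
  obtain ⟨F', h', hF'⟩ := exists_W P F hs
  obtain ⟨i, σ⟩ := s
  simp only at F' h' hF'
  rw [lk_iff]
  obtain ⟨G, hG⟩ : ∃ G, G = grU P F' σ := ⟨_, rfl⟩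
  have hdet : G.det ≠ 0 := by rw [hG]; exact FT.gram_det (.inl F') rfl σ
  have hJ : (JJ * Gᵀ).det ≠ 0 := by
    rw [Matrix.det_mul, Matrix.det_transpose]
    refine mul_ne_zero ?_ hdet
    simp [JJ, Matrix.det_fin_two]
  have hu : IsUnit (JJ * Gᵀ).det := isUnit_iff_ne_zero.mpr hJ
  refine ⟨(JJ * Gᵀ)⁻¹, ?_, fun X hX => ?_⟩
  · rw [← isUnit_iff_ne_zero]
    exact Matrix.isUnit_nonsing_inv_det _ hu
  · show AA P F ⟨i, σ⟩ ε X * _ = _ * AA P F ⟨i, ComplexEmbedding.conjugate σ⟩ ε' X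
    have htr := AA_tr P F ⟨i, ComplexEmbedding.conjugate σ⟩ ε' (X := X)
      (symI n P α hX)
    have e1 : AA P F ⟨i, σ⟩ ε X = nmU P F' σ X := AA_W' P F hF' σ ε X
    have e2 : AA P F ⟨i, ComplexEmbedding.conjugate σ⟩ ε' X =
        nmU P F' (ComplexEmbedding.conjugate σ) X :=
      AA_W' P F hF' (ComplexEmbedding.conjugate σ) ε' X
    have e3 := nmU_gram n P α F' X hX σ
    rw [← e1, ← e2, ← hG] at e3
    generalize AA P F ⟨i, σ⟩ ε X = M at e3 ⊢
    generalize AA P F ⟨i, ComplexEmbedding.conjugate σ⟩ ε' X = M' at e3 htr ⊢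
    have e4 : Mᵀ * G = -(G * (JJ * M'ᵀ * JJ)) := by
      rw [eq_sub_of_add_eq e3, ← Matrix.mul_neg, ← JJ_adj, htr, Matrix.mul_sub, Matrix.mul_smul,
        Matrix.mul_one]
    have hJt : JJᵀ = -JJ := by
      ext a b
      fin_cases a <;> fin_cases b <;> simp [JJ]
    have e5 : Gᵀ * M = -(JJ * M' * JJ * Gᵀ) := by
      have e6 := congrArg Matrix.transpose e4
      rw [Matrix.transpose_mul, Matrix.transpose_transpose, Matrix.transpose_neg,
        Matrix.transpose_mul, Matrix.transpose_mul, Matrix.transpose_mul,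
        Matrix.transpose_transpose, hJt] at e6
      rw [e6]
      simp only [Matrix.neg_mul, Matrix.mul_neg, neg_neg, Matrix.mul_assoc]
    have e7 : JJ * Gᵀ * M = M' * (JJ * Gᵀ) := by
      rw [Matrix.mul_assoc, e5, Matrix.mul_neg]
      calc -(JJ * (JJ * M' * JJ * Gᵀ)) = -((JJ * JJ) * M' * (JJ * Gᵀ)) := by
            simp only [Matrix.mul_assoc]
        _ = _ := by rw [JJ_mul, Matrix.neg_mul, Matrix.one_mul, Matrix.neg_mul, neg_neg]
    calc M * (JJ * Gᵀ)⁻¹ = (JJ * Gᵀ)⁻¹ * ((JJ * Gᵀ) * M) * (JJ * Gᵀ)⁻¹ := by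
          rw [← Matrix.mul_assoc, Matrix.nonsing_inv_mul _ hu, Matrix.one_mul]
      _ = (JJ * Gᵀ)⁻¹ * M' := by
          rw [e7, Matrix.mul_assoc, Matrix.mul_assoc, Matrix.mul_nonsing_inv _ hu, Matrix.mul_one]

include hϖ hB hA in
/-- pieces of places of type III are not linked with places of unitary type -/
theorem not_lk_W
    (hno : ∀ (s : Emb K) (ε : Fin 2) (t' : Emb K × Fin 2), (F s.1).isQ → (F t'.1.1).isQ →
      Lk n P α F (s, ε) t' → t'.1 = s ∨ t'.1 = conjT s)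
    (hW : ∀ (s : Emb K) (t' : Emb K × Fin 2), (F s.1).isW → (F t'.1.1).isW →
      Lk n P α F (s, 0) t' → t'.1 = s ∨ t'.1 = conjT s)
    (hQW : ∀ i j, (F i).isQ → (F j).isW →
      finrank ℚ (K j) ≠ finrank ℚ (K i) ∧ finrank ℚ (K j) ≠ 2 * finrank ℚ (K i))
    (t t' : Emb K × Fin 2) (ht : (F t.1.1).isQ) (ht' : (F t'.1.1).isW) : ¬ Lk n P α F t t' := by
  classical
  intro hlk
  obtain ⟨⟨i, σ₀⟩, ε₀⟩ := t
  obtain ⟨⟨j, τ₀⟩, δ₀⟩ := t'
  simp only at ht ht'
  obtain ⟨Z, hZ⟩ : ∃ Z : (K i →+* ℂ) → (K j →+* ℂ) → Prop,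
    Z = fun σ τ => ∃ ε, Lk n P α F (⟨i, σ⟩, ε) (⟨j, τ⟩, 0) := ⟨_, rfl⟩
  obtain ⟨F', hF'⟩ := exists_Q P F (s := ⟨i, σ₀⟩) ht
  obtain ⟨G', g', hG'⟩ := exists_W P F (s := ⟨j, τ₀⟩) ht'
  -- all the indices at a place of unitary type are linked
  have hWW : ∀ (τ : K j →+* ℂ) (δ δ' : Fin 2), Lk n P α F (⟨j, τ⟩, δ) (⟨j, τ⟩, δ') := fun τ δ δ' =>
    (lk_conjW n P α F ⟨j, τ⟩ ht' δ 0).trans (lk_conjW n P α F ⟨j, τ⟩ ht' δ' 0).symm
  have hWc : ∀ (τ : K j →+* ℂ), Lk n P α F (⟨j, τ⟩, 0) (⟨j, ComplexEmbedding.conjugate τ⟩, 0) :=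
    fun τ => lk_conjW n P α F ⟨j, τ⟩ ht' 0 0
  have hZ0 : Z σ₀ τ₀ := by
    rw [hZ]
    exact ⟨ε₀, hlk.trans (hWW τ₀ δ₀ 0)⟩
  -- Galois stability
  have hZg : ∀ (g : ℂ ≃+* ℂ) σ τ, Z σ τ → Z ((g : ℂ →+* ℂ).comp σ) ((g : ℂ →+* ℂ).comp τ) := by
    intro g σ τ h
    rw [hZ] at h ⊢
    obtain ⟨ε, h⟩ := h
    have h1 := lk_pact n P α F hϖ hB hA g (t := (⟨i, σ⟩, ε)) (t' := (⟨j, τ⟩, 0))
      ((F i).isP_of_Q ht) ((F j).isP_of_W ht') h
    have h2 : pact n P α F g (⟨j, τ⟩, 0) = (⟨j, (g : ℂ →+* ℂ).comp τ⟩, 0) :=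
      Prod.ext rfl (pact_snd' n P α F g (t := (⟨j, τ⟩, 0)) (fun h => (F j).not_WQ ht' h))
    rw [h2] at h1
    exact ⟨(pact n P α F g (⟨i, σ⟩, ε)).2, h1⟩
  have hZg' : ∀ (g : ℂ ≃+* ℂ) σ τ, Z ((g : ℂ →+* ℂ).comp σ) ((g : ℂ →+* ℂ).comp τ) → Z σ τ := by
    intro g σ τ h
    have h1 := hZg g.symm _ _ h
    have e1 : (g.symm : ℂ →+* ℂ).comp ((g : ℂ →+* ℂ).comp σ) = σ := by ext x; simp
    have e2 : (g.symm : ℂ →+* ℂ).comp ((g : ℂ →+* ℂ).comp τ) = τ := by ext x; simp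
    rwa [e1, e2] at h1
  -- columns
  have hcol : ∀ τ : K j →+* ℂ, (Finset.univ.filter fun σ => Z σ τ).card = 2 := by
    intro τ
    have h1 := card_pair (Finset.univ.filter fun σ => Z σ τ) ComplexEmbedding.conjugate (by
        intro σ hσ
        rw [Finset.mem_filter] at hσ ⊢
        refine ⟨Finset.mem_univ _, ?_⟩
        have h := hσ.2
        rw [hZ] at h ⊢
        obtain ⟨ε, h⟩ := h
        obtain ⟨π, hπ⟩ := lk_conj n P α F hϖ hB hA ⟨i, σ⟩ ht
        exact ⟨π ε, (hπ ε).symm.trans h⟩) (fun σ h => F'.cplx σ h) (by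
        intro σ hσ σ' hσ'
        rw [Finset.mem_filter] at hσ hσ'
        have h := hσ.2
        have h' := hσ'.2
        rw [hZ] at h h'
        obtain ⟨ε, h⟩ := h
        obtain ⟨ε', h'⟩ := h'
        rcases hno ⟨i, σ⟩ ε (⟨i, σ'⟩, ε') ht ht (h.trans h'.symm) with h3 | h3
        · left
          exact eq_of_heq (Sigma.mk.inj h3).2
        · right
          exact eq_of_heq (Sigma.mk.inj h3).2)
    rcases h1 with h1 | h1
    · exfalso
      obtain ⟨g, hg⟩ := Pool.Agent.Helper84.exists_aut τ₀ τ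
      have h2 := hZg g _ _ hZ0
      rw [hg] at h2
      have h3 : (g : ℂ →+* ℂ).comp σ₀ ∈ Finset.univ.filter fun σ => Z σ τ :=
        Finset.mem_filter.mpr ⟨Finset.mem_univ _, h2⟩
      rw [Finset.card_eq_zero.mp h1] at h3
      exact Finset.notMem_empty _ h3
    · exact h1
  -- rows
  have hrow : ∀ σ : K i →+* ℂ, (Finset.univ.filter fun τ => Z σ τ).card = 2 ∨
      (Finset.univ.filter fun τ => Z σ τ).card = 4 := by
    intro σ
    have hε : ∀ ε : Fin 2,
        (Finset.univ.filter fun τ => Lk n P α F (⟨i, σ⟩, ε) (⟨j, τ⟩, 0)).card = 0 ∨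
        (Finset.univ.filter fun τ => Lk n P α F (⟨i, σ⟩, ε) (⟨j, τ⟩, 0)).card = 2 := by
      intro ε
      refine card_pair _ ComplexEmbedding.conjugate (fun τ hτ => ?_) (fun τ => g' τ)
        (fun τ hτ τ' hτ' => ?_)
      · rw [Finset.mem_filter] at hτ ⊢
        exact ⟨Finset.mem_univ _, hτ.2.trans (hWc τ)⟩
      · rw [Finset.mem_filter] at hτ hτ'
        rcases hW ⟨j, τ⟩ (⟨j, τ'⟩, 0) ht' ht' (hτ.2.symm.trans hτ'.2) with h3 | h3
        · left
          exact eq_of_heq (Sigma.mk.inj h3).2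
        · right
          exact eq_of_heq (Sigma.mk.inj h3).2
    have hun : (Finset.univ.filter fun τ => Z σ τ) =
        (Finset.univ.filter fun τ => Lk n P α F (⟨i, σ⟩, 0) (⟨j, τ⟩, 0)) ∪
        (Finset.univ.filter fun τ => Lk n P α F (⟨i, σ⟩, 1) (⟨j, τ⟩, 0)) := by
      ext τ
      rw [Finset.mem_union, Finset.mem_filter, Finset.mem_filter, Finset.mem_filter, hZ]
      simp only [Finset.mem_univ, true_and]
      constructor
      · rintro ⟨ε, h⟩
        fin_cases ε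
        · exact Or.inl h
        · exact Or.inr h
      · rintro (h | h)
        · exact ⟨0, h⟩
        · exact ⟨1, h⟩
    have hdis : Disjoint (Finset.univ.filter fun τ => Lk n P α F (⟨i, σ⟩, 0) (⟨j, τ⟩, 0))
        (Finset.univ.filter fun τ => Lk n P α F (⟨i, σ⟩, 1) (⟨j, τ⟩, 0)) := by
      rw [Finset.disjoint_left]
      intro τ h1 h2
      exact AS_not_conj n P α F hϖ hB hA ⟨i, σ⟩ ht
        (((Finset.mem_filter.mp h1).2).trans ((Finset.mem_filter.mp h2).2).symm)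
    have hne : (Finset.univ.filter fun τ => Z σ τ).card ≠ 0 := by
      intro h1
      obtain ⟨g, hg⟩ := Pool.Agent.Helper84.exists_aut σ₀ σ
      have h2 := hZg g _ _ hZ0
      rw [hg] at h2
      have h3 : (g : ℂ →+* ℂ).comp τ₀ ∈ Finset.univ.filter fun τ => Z σ τ :=
        Finset.mem_filter.mpr ⟨Finset.mem_univ _, h2⟩
      rw [Finset.card_eq_zero.mp h1] at h3
      exact Finset.notMem_empty _ h3
    have hcard := congrArg Finset.card hun
    rw [Finset.card_union_of_disjoint hdis] at hcard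
    rcases hε 0 with h0 | h0 <;> rcases hε 1 with h1 | h1 <;> rw [h0, h1] at hcard <;> omega
  -- rows have constant size
  have hconst : ∀ σ : K i →+* ℂ, (Finset.univ.filter fun τ => Z σ τ).card =
      (Finset.univ.filter fun τ => Z σ₀ τ).card := by
    intro σ
    obtain ⟨g, hg⟩ := Pool.Agent.Helper84.exists_aut σ₀ σ
    symm
    refine Finset.card_bij (fun τ _ => (g : ℂ →+* ℂ).comp τ) (fun τ hτ => ?_)
      (fun τ _ τ' _ h => ?_) (fun τ hτ => ?_)
    · rw [Finset.mem_filter] at hτ ⊢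
      have h2 := hZg g _ _ hτ.2
      rw [hg] at h2
      exact ⟨Finset.mem_univ _, h2⟩
    · ext x
      have h1 := congrArg (fun f => f x) h
      exact g.injective h1
    · rw [Finset.mem_filter] at hτ
      have e2 : (g : ℂ →+* ℂ).comp ((g.symm : ℂ →+* ℂ).comp τ) = τ := by ext x; simp
      refine ⟨(g.symm : ℂ →+* ℂ).comp τ, ?_, e2⟩
      rw [Finset.mem_filter]
      refine ⟨Finset.mem_univ _, hZg' g _ _ ?_⟩
      rw [hg, e2]
      exact hτ.2
  have hdc := Finset.card_mul_eq_card_mul (s := (Finset.univ : Finset (K i →+* ℂ)))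
    (t := (Finset.univ : Finset (K j →+* ℂ))) (r := Z)
    (m := (Finset.univ.filter fun τ => Z σ₀ τ).card) (n := 2)
    (fun σ _ => hconst σ) (fun τ _ => hcol τ)
  rw [Finset.card_univ, Finset.card_univ, Embeddings.card, Embeddings.card] at hdc
  obtain ⟨h1, h2⟩ := hQW i j ht ht'
  rcases hrow σ₀ with h3 | h3 <;> rw [h3] at hdc <;> omega

end family

end Pool.Agent.Helper36.E
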